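import Mathlib
import Pool.Agent.MP_2e1455_lc.Tower

namespace Pool.Agent.Results.MP_2e1455_lc.NoCollapse

open Pool.Agent.MP_2e1455_lc

/-- The closing hierarchy does not collapse at any finite level, over every finite alphabet with
at least two letters. -/
theorem result (S : Type) [Fintype S] [TopologicalSpace S] [DiscreteTopology S]
    (hS : 2 ≤ Fintype.card S) :
    ∀ n : ℕ, ∃ f ∈ hierarchy S, f ∉ levelL S n ∪ levelR S n := by
  intro n
  obtain ⟨f, hf, hf'⟩ := exists_mem_not_mem_level S hS n
  exact ⟨f, Set.mem_iUnion.2 ⟨n + 1, hf⟩, hf'⟩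

end Pool.Agent.Results.MP_2e1455_lc.NoCollapse
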