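import Mathlib
import Pool.Agent.MP_2e1455_lc.Prime

namespace Pool.Agent.Results.MP_2e1455_lc.SurjectiveOutside

open Pool.Agent.MP_2e1455_lc

/-- Over every finite alphabet with at least two letters there is a surjective cellular automaton
that is not a finite composition of left-closing and right-closing cellular automata. -/
theorem result (S : Type) [Fintype S] [TopologicalSpace S] [DiscreteTopology S]
    (hS : 2 ≤ Fintype.card S) :
    ∃ f : (ℤ → S) → (ℤ → S), IsCA f ∧ Function.Surjective f ∧ f ∉ hierarchy S :=
  exists_surjective_not_mem S hS

end Pool.Agent.Results.MP_2e1455_lc.SurjectiveOutside
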